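import Pool.Agent.H10.T2.Targets1

/-!
# Module ZE of the board t2_modules (MP_657073_al): the central idempotents, first part
-/

open scoped Classical ComplexConjugate

namespace Pool.Agent.H58.T2.ZE

open AMc AMe AMt Pool.Agent.H77.EA.All

section
variable {Γ : Type} [Group Γ] [Fintype Γ]

theorem coeff_cn (u : Γ) (z : MonoidAlgebra ℂ Γ) (x : Γ) :
    (cn u z).coeff x = z.coeff (u⁻¹ * x * u) := by
  unfold cn
  rw [coeff_mul_group, Finset.sum_eq_single (x * u)]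
  · rw [coeff_mul_group, Finset.sum_eq_single u]
    · rw [MonoidAlgebra.coeff_single, MonoidAlgebra.coeff_single, Finsupp.single_apply,
        Finsupp.single_apply, if_pos rfl, if_pos (by group), one_mul, mul_one, ← mul_assoc]
    · intro b _ hb
      rw [MonoidAlgebra.coeff_single, Finsupp.single_apply, if_neg hb.symm, zero_mul]
    · intro h
      exact absurd (Finset.mem_univ _) h
  · intro b _ hb
    rw [MonoidAlgebra.coeff_single, Finsupp.single_apply, if_neg, mul_zero]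
    intro h
    apply hb
    have h1 : b = x * (b⁻¹ * x)⁻¹ := by group
    rw [h1, ← h, inv_inv]
  · intro h
    exact absurd (Finset.mem_univ _) h

theorem coeff_ei (K : Subgroup Γ) (θ : Γ → ℂ) (g : Γ) :
    (ei K θ).coeff g = θ 1 / (Nat.card K : ℂ) * conj (θ g) := by
  unfold ei
  rw [MonoidAlgebra.coeff_ofCoeff]
  rfl

theorem ev_add (θ : Γ → ℂ) (z w : MonoidAlgebra ℂ Γ) : ev θ (z + w) = ev θ z + ev θ w := by
  unfold ev
  rw [← Finset.sum_add_distrib]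
  refine Finset.sum_congr rfl fun g _ => ?_
  rw [MonoidAlgebra.coeff_add, Finsupp.add_apply]
  ring

theorem ev_smul (θ : Γ → ℂ) (c : ℂ) (z : MonoidAlgebra ℂ Γ) : ev θ (c • z) = c * ev θ z := by
  unfold ev
  rw [Finset.mul_sum]
  refine Finset.sum_congr rfl fun g _ => ?_
  rw [MonoidAlgebra.coeff_smul, Finsupp.smul_apply, smul_eq_mul]
  ring

theorem ev_zero (θ : Γ → ℂ) : ev θ (0 : MonoidAlgebra ℂ Γ) = 0 := by
  unfold ev
  refine Finset.sum_eq_zero fun g _ => ?_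
  rw [MonoidAlgebra.coeff_zero]
  simp

theorem ev_sub (θ : Γ → ℂ) (z w : MonoidAlgebra ℂ Γ) : ev θ (z - w) = ev θ z - ev θ w := by
  have h : z - w = z + (-1 : ℂ) • w := by
    rw [neg_smul, one_smul, sub_eq_add_neg]
  rw [h, ev_add, ev_smul]
  ring

theorem ev_sum (θ : Γ → ℂ) {ι : Type} (s : Finset ι) (f : ι → MonoidAlgebra ℂ Γ) :
    ev θ (∑ i ∈ s, f i) = ∑ i ∈ s, ev θ (f i) := by
  induction s using Finset.induction_on with
  | empty =>
    rw [Finset.sum_empty, Finset.sum_empty, ev_zero]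
  | insert i s hi ih =>
    rw [Finset.sum_insert hi, Finset.sum_insert hi, ev_add, ih]

theorem ev_one (θ : Γ → ℂ) : ev θ (1 : MonoidAlgebra ℂ Γ) = θ 1 := by
  unfold ev
  rw [Finset.sum_eq_single 1]
  · rw [MonoidAlgebra.one_def, MonoidAlgebra.coeff_single, Finsupp.single_apply, if_pos rfl,
      one_mul]
  · intro b _ hb
    rw [MonoidAlgebra.one_def, MonoidAlgebra.coeff_single, Finsupp.single_apply,
      if_neg hb.symm, zero_mul]
  · intro h
    exact absurd (Finset.mem_univ _) h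

theorem deg_ne {K : Subgroup Γ} {θ : Γ → ℂ} (h : θ ∈ IrrS K) : θ 1 ≠ 0 := by
  obtain ⟨-, -, ⟨d, hd, hE⟩, -⟩ := fS1 Γ K θ h
  rw [hE]
  exact_mod_cast hd.ne'

theorem card_ne (K : Subgroup Γ) : (Nat.card K : ℂ) ≠ 0 := by
  exact_mod_cast Nat.card_pos.ne'

theorem ev_ei {K : Subgroup Γ} {θ θ' : Γ → ℂ} (h : θ ∈ IrrS K) (h' : θ' ∈ IrrS K) :
    ev θ' (ei K θ) = if θ' = θ then θ 1 else 0 := by
  have h1 := fS2 Γ K θ' θ h' h
  have h2 : ev θ' (ei K θ) = θ 1 / (Nat.card K : ℂ) * ∑ g, θ' g * conj (θ g) := by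
    unfold ev
    rw [Finset.mul_sum]
    refine Finset.sum_congr rfl fun g _ => ?_
    rw [coeff_ei]
    ring
  rw [h2, h1]
  split_ifs
  · rw [div_mul_cancel₀ _ (card_ne K)]
  · rw [mul_zero]

theorem ei_mem {K : Subgroup Γ} {θ : Γ → ℂ} (h : θ ∈ IrrS K) : ei K θ ∈ ZA ℂ K K := by
  obtain ⟨h1, h2, -⟩ := fS1 Γ K θ h
  refine ⟨fun g hg => ?_, fun u hu g => ?_⟩
  · rw [coeff_ei, h1 g hg, map_zero, mul_zero]
  · rw [coeff_ei, coeff_ei, h2 u hu g]

/-- central elements on which all characters vanish are zero -/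
theorem test {K : Subgroup Γ} {w : MonoidAlgebra ℂ Γ} (hw : w ∈ ZA ℂ K K)
    (h : ∀ θ ∈ IrrS K, ev θ w = 0) : w = 0 := by
  have h1 : (fun g => w.coeff g⁻¹) = (0 : Γ → ℂ) := by
    refine fS3 Γ K (fun g => w.coeff g⁻¹) (fun g hg => hw.1 _ fun h' => hg ?_)
      (fun n hn g => ?_) (fun θ hθ => ?_)
    · have := K.inv_mem h'
      rwa [inv_inv] at this
    · have h2 : (n * g * n⁻¹)⁻¹ = n * g⁻¹ * n⁻¹ := by group
      simp only [h2]
      exact hw.2 n hn _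
    · have h3 := h θ hθ
      obtain ⟨-, -, -, h4, -⟩ := fS1 Γ K θ hθ
      unfold ev at h3
      rw [← Equiv.sum_comp (Equiv.inv Γ)] at h3
      rw [← h3]
      refine Finset.sum_congr rfl fun g _ => ?_
      rw [h4 g]
      rfl
  ext g
  have h2 := congrFun h1 g⁻¹
  simp only [inv_inv, Pi.zero_apply] at h2
  rw [h2, MonoidAlgebra.coeff_zero]
  rfl

theorem smul_mem' {K : Subgroup Γ} {w : MonoidAlgebra ℂ Γ} (hw : w ∈ ZA ℂ K K) (c : ℂ) :
    c • w ∈ ZA ℂ K K := (ZA ℂ K K).smul_mem hw c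

theorem mul_ei {K : Subgroup Γ} {θ : Γ → ℂ} (h : θ ∈ IrrS K) {v : MonoidAlgebra ℂ Γ}
    (hv : v ∈ ZA ℂ K K) : v * ei K θ = (ev θ v / θ 1) • ei K θ := by
  have h1 := ei_mem h
  refine sub_eq_zero.1 (test ((ZA ℂ K K).sub_mem ((ZA ℂ K K).mul_mem hv h1)
    (smul_mem' h1 _)) fun θ' h' => ?_)
  rw [ev_sub, ev_smul, ev_ei h h']
  have h2 : ev θ' (v * ei K θ) * θ' 1 = ev θ' v * ev θ' (ei K θ) :=
    fS6 Γ K θ' h' v hv _ h1
  rw [ev_ei h h'] at h2
  by_cases hE : θ' = θ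
  · subst hE
    rw [if_pos rfl] at h2 ⊢
    have h3 := mul_right_cancel₀ (deg_ne h) h2
    rw [h3, div_mul_cancel₀ _ (deg_ne h), sub_self]
  · rw [if_neg hE] at h2 ⊢
    rw [mul_zero] at h2 ⊢
    rw [sub_zero]
    exact (mul_eq_zero.1 h2).resolve_right (deg_ne h')

theorem sum_ei (K : Subgroup Γ) : ∃ fs : Finset (Γ → ℂ), (∀ θ, θ ∈ fs ↔ θ ∈ IrrS K) ∧
    ∑ θ ∈ fs, ei K θ = 1 := by
  obtain ⟨fs, hfs, -⟩ := fS9 Γ K
  refine ⟨fs, hfs, ?_⟩
  refine sub_eq_zero.1 (test ((ZA ℂ K K).sub_mem ((ZA ℂ K K).sum_mem fun θ hθ =>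
    ei_mem ((hfs θ).1 hθ)) (ZA ℂ K K).one_mem) fun θ' h' => ?_)
  rw [ev_sub, ev_sum, ev_one]
  have h1 : ∑ θ ∈ fs, ev θ' (ei K θ) = ∑ θ ∈ fs, if θ' = θ then θ 1 else 0 :=
    Finset.sum_congr rfl fun θ hθ => ev_ei ((hfs θ).1 hθ) h'
  rw [h1, Finset.sum_ite_eq, if_pos ((hfs θ').2 h'), sub_self]

end

theorem ze : T_ZE := by
  intro Γ _ _ K
  refine ⟨?_, ?_, ?_, ?_, ?_⟩
  · intro θ h
    refine ⟨ei_mem h, fun h0 => ?_⟩
    have h1 := ev_ei h h
    rw [h0, ev_zero, if_pos rfl] at h1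
    exact deg_ne h h1.symm
  · intro θ h v hv
    exact mul_ei h hv
  · intro θ h θ' h'
    rw [mul_ei h' (ei_mem h), ev_ei h h']
    by_cases hE : θ = θ'
    · subst hE
      rw [if_pos rfl, if_pos rfl, div_self (deg_ne h), one_smul]
    · rw [if_neg hE, if_neg (fun h2 => hE h2.symm), zero_div, zero_smul]
  · intro z _ hz
    obtain ⟨fs, hfs, hs⟩ := sum_ei K
    rw [← mul_one z, ← hs, Finset.mul_sum]
    exact Finset.sum_eq_zero fun θ hθ => hz θ ((hfs θ).1 hθ)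
  · intro u θ
    ext x
    rw [coeff_cn, coeff_ei, coeff_ei]
    unfold cj
    rw [inv_inv]
    have h1 : u⁻¹ * 1 * u = 1 := by group
    rw [h1]

end Pool.Agent.H58.T2.ZE
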